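import Pool.Agent.Helper41.LD.Defs

/-!
# Project LD, block N: windows without cell boundaries
-/

set_option autoImplicit false

namespace Pool.Agent.Helper8.LD

open Pool.Agent.Helper41.LD Set MeasureTheory Filter Topology

variable {θ : ℝ} {c : ℕ → ℝ}

lemma u_mono (hθ : 1 < θ) (j : ℕ) {x y : ℝ} (h : x ≤ y) : u θ c j x ≤ u θ c j y := by
  unfold u
  have : 0 ≤ θ ^ j := pow_nonneg (by linarith) j
  have := mul_le_mul_of_nonneg_right h this
  linarith

/-- the number of the windows with a boundary at one time -/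
lemma card_one (hθ : 1 < θ) (K j : ℕ) (a : ℝ) {ℓ : ℝ} (hℓ : 0 < ℓ) {B : ℕ} (hB : 1 ≤ B) :
    (((Finset.range B).filter fun b : ℕ => ⌊(2 : ℝ) ^ K * u θ c j (a + b * (ℓ / B))⌋ <
      ⌊(2 : ℝ) ^ K * u θ c j (a + (b + 1 : ℕ) * (ℓ / B))⌋).card : ℝ) ≤ 2 ^ K * θ ^ j * ℓ + 1 := by
  have hB0 : (0 : ℝ) < B := by exact_mod_cast hB
  have hδ : 0 < ℓ / B := by positivity
  set v : ℕ → ℤ := fun b => ⌊(2 : ℝ) ^ K * u θ c j (a + b * (ℓ / B))⌋ with hv
  have hmono : ∀ b, v b ≤ v (b + 1) := by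
    intro b
    refine Int.floor_le_floor (mul_le_mul_of_nonneg_left (u_mono hθ j ?_) (by positivity))
    push_cast
    nlinarith
  have h1 : (((Finset.range B).filter fun b : ℕ => v b < v (b + 1)).card : ℤ) ≤ v B - v 0 := by
    calc (((Finset.range B).filter fun b : ℕ => v b < v (b + 1)).card : ℤ)
        = ∑ b ∈ (Finset.range B).filter fun b : ℕ => v b < v (b + 1), (1 : ℤ) := by simp
      _ ≤ ∑ b ∈ (Finset.range B).filter fun b : ℕ => v b < v (b + 1), (v (b + 1) - v b) := by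
          refine Finset.sum_le_sum fun b hb => ?_
          have := (Finset.mem_filter.1 hb).2
          omega
      _ ≤ ∑ b ∈ Finset.range B, (v (b + 1) - v b) := by
          refine Finset.sum_le_sum_of_subset_of_nonneg (Finset.filter_subset _ _) fun b _ _ => ?_
          have := hmono b
          omega
      _ = v B - v 0 := Finset.sum_range_sub v B
  have h2 : (v B : ℝ) ≤ 2 ^ K * u θ c j (a + ℓ) := by
    have e : a + (B : ℝ) * (ℓ / B) = a + ℓ := by
      rw [mul_div_cancel₀ _ hB0.ne']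
    have := Int.floor_le ((2 : ℝ) ^ K * u θ c j (a + B * (ℓ / B)))
    rw [e] at this
    simp only [hv]
    rw [e]
    exact this
  have h3 : (2 : ℝ) ^ K * u θ c j a - 1 ≤ v 0 := by
    have := Int.lt_floor_add_one ((2 : ℝ) ^ K * u θ c j (a + ((0 : ℕ) : ℝ) * (ℓ / B)))
    simp only [hv]
    rw [Nat.cast_zero, zero_mul, add_zero] at this ⊢
    linarith
  have h4 : (((Finset.range B).filter fun b : ℕ => v b < v (b + 1)).card : ℝ) ≤ v B - v 0 := by exact_mod_cast h1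
  have h5 : (2 : ℝ) ^ K * u θ c j (a + ℓ) - 2 ^ K * u θ c j a = 2 ^ K * θ ^ j * ℓ := by
    unfold u
    ring
  calc _ ≤ (v B : ℝ) - v 0 := h4
    _ ≤ _ := by linarith

open Classical in
theorem nb_count (hθ : 1 < θ) {n L : ℕ} (r K : ℕ) (a : ℝ) {ℓ : ℝ} (hw : Win θ n ℓ) {B : ℕ} (hB : 1 ≤ B) :
    (((Finset.range B).filter fun b : ℕ => ¬ NB θ c (n + L) r K (a + b * (ℓ / B)) (ℓ / B)).card : ℝ) ≤
      2 ^ (K + 1) * (θ / (θ - 1)) * θ ^ L / θ ^ r + (n + L) := by
  have hθ0 : 0 < θ := by linarith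
  have hθ1 : 0 < θ - 1 := by linarith
  have hθn : 0 < θ ^ n := pow_pos hθ0 n
  have hℓ : 0 < ℓ := by
    by_contra h
    push Not at h
    have := mul_nonpos_of_nonneg_of_nonpos hθn.le h
    linarith [hw.1]
  have hB0 : (0 : ℝ) < B := by exact_mod_cast hB
  have hδ : 0 < ℓ / B := by positivity
  rcases Nat.lt_or_ge (n + L) r with hr | hr
  · have h0 : ((Finset.range B).filter fun b : ℕ => ¬ NB θ c (n + L) r K (a + b * (ℓ / B)) (ℓ / B)) = ∅ := by
      refine Finset.filter_eq_empty_iff.2 fun b _ hb => hb ?_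
      intro j hj
      omega
    rw [h0, Finset.card_empty, Nat.cast_zero]
    positivity
  have hsub : ((Finset.range B).filter fun b : ℕ => ¬ NB θ c (n + L) r K (a + b * (ℓ / B)) (ℓ / B)) ⊆
      (Finset.range (n + L - r)).biUnion fun j => (Finset.range B).filter fun b : ℕ =>
        ⌊(2 : ℝ) ^ K * u θ c j (a + b * (ℓ / B))⌋ < ⌊(2 : ℝ) ^ K * u θ c j (a + (b + 1 : ℕ) * (ℓ / B))⌋ := by
    intro b hb
    rw [Finset.mem_filter] at hb
    obtain ⟨hb1, hb2⟩ := hb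
    unfold NB at hb2
    push Not at hb2
    obtain ⟨j, hj, x, hx, hne⟩ := hb2
    rw [Finset.mem_biUnion]
    refine ⟨j, Finset.mem_range.2 (by omega), Finset.mem_filter.2 ⟨hb1, ?_⟩⟩
    have h2K : (0 : ℝ) ≤ 2 ^ K := by positivity
    have h1 : ⌊(2 : ℝ) ^ K * u θ c j (a + b * (ℓ / B))⌋ ≤ ⌊(2 : ℝ) ^ K * u θ c j x⌋ :=
      Int.floor_le_floor (mul_le_mul_of_nonneg_left (u_mono hθ j hx.1) h2K)
    have h2 : ⌊(2 : ℝ) ^ K * u θ c j x⌋ ≤ ⌊(2 : ℝ) ^ K * u θ c j (a + (b + 1 : ℕ) * (ℓ / B))⌋ := by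
      refine Int.floor_le_floor (mul_le_mul_of_nonneg_left (u_mono hθ j ?_) h2K)
      have h3 : a + ((b + 1 : ℕ) : ℝ) * (ℓ / B) = a + b * (ℓ / B) + ℓ / B := by
        push_cast
        ring
      rw [h3]
      exact hx.2
    exact (lt_of_le_of_ne h1 (Ne.symm hne)).trans_le h2
  have hcard : (((Finset.range B).filter fun b : ℕ => ¬ NB θ c (n + L) r K (a + b * (ℓ / B)) (ℓ / B)).card : ℝ) ≤
      ∑ j ∈ Finset.range (n + L - r), (2 ^ K * θ ^ j * ℓ + 1) := by
    have h1 := (Finset.card_le_card hsub).trans Finset.card_biUnion_le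
    calc _ ≤ ((∑ j ∈ Finset.range (n + L - r), ((Finset.range B).filter fun b : ℕ =>
        ⌊(2 : ℝ) ^ K * u θ c j (a + b * (ℓ / B))⌋ < ⌊(2 : ℝ) ^ K * u θ c j (a + (b + 1 : ℕ) * (ℓ / B))⌋).card : ℕ) : ℝ) := by
          exact_mod_cast h1
      _ ≤ _ := by
          rw [Nat.cast_sum]
          exact Finset.sum_le_sum fun j _ => card_one hθ K j a hℓ hB
  refine hcard.trans ?_
  rw [Finset.sum_add_distrib]
  refine add_le_add ?_ ?_
  · have h1 : ∑ j ∈ Finset.range (n + L - r), (2 : ℝ) ^ K * θ ^ j * ℓ =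
        2 ^ K * ℓ * ((θ ^ (n + L - r) - 1) / (θ - 1)) := by
      rw [← geom_sum_eq hθ.ne', Finset.mul_sum]
      refine Finset.sum_congr rfl fun j _ => ?_
      ring
    rw [h1]
    have h2 : θ ^ (n + L - r) = θ ^ n * θ ^ L / θ ^ r := by
      rw [eq_div_iff (by positivity), ← pow_add, ← pow_add]
      congr 1
      omega
    have h3 : (θ ^ (n + L - r) - 1) / (θ - 1) ≤ (θ ^ n * θ ^ L / θ ^ r) / (θ - 1) := by
      rw [h2]
      exact div_le_div_of_nonneg_right (by linarith) hθ1.le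
    have h4 : 0 ≤ (2 : ℝ) ^ K * ℓ := by positivity
    calc 2 ^ K * ℓ * ((θ ^ (n + L - r) - 1) / (θ - 1)) ≤ 2 ^ K * ℓ * ((θ ^ n * θ ^ L / θ ^ r) / (θ - 1)) :=
          mul_le_mul_of_nonneg_left h3 h4
      _ = 2 ^ K * (1 / (θ - 1)) * θ ^ L / θ ^ r * (θ ^ n * ℓ) := by
          field_simp
      _ ≤ 2 ^ K * (θ / (θ - 1)) * θ ^ L / θ ^ r * 2 := by
          have h5 : 1 / (θ - 1) ≤ θ / (θ - 1) := div_le_div_of_nonneg_right hθ.le hθ1.le
          have h6 := hw.2
          have h7 : 0 ≤ θ ^ n * ℓ := by positivity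
          gcongr
      _ = _ := by
          rw [pow_succ]
          ring
  · rw [Finset.sum_const, Finset.card_range, nsmul_eq_mul, mul_one]
    exact_mod_cast Nat.sub_le (n + L) r

end Pool.Agent.Helper8.LD
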